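import Mathlib

/-!
# D-type latin squares of order `2 ^ k`, `k ≥ 6`, whose square is latin (MP_2f0703_co): the proof of helper90 (helper28)

`V = {0, a, a^2, a^3, ...}` the additive subgroup generated by `a, a^2, a^3`, `c = a^3 + a`, `θ x = x + c` on `V` and `x` elsewhere,
`f x = θ (a θ x)`.
-/

set_option autoImplicit false

namespace Pool.Agent.H28.PT5

open Finset

section field

variable {F : Type} [Field F] [CharP F 2]

/-- the subgroup -/
def V (a : F) : AddSubgroup F := AddSubgroup.closure {a, a ^ 2, a ^ 3}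

theorem dbl (x : F) : x + x = 0 := CharTwo.add_self_eq_zero x

theorem a1_mem (a : F) : a ∈ V a := AddSubgroup.subset_closure (by simp)
theorem a2_mem (a : F) : a ^ 2 ∈ V a := AddSubgroup.subset_closure (by simp)
theorem a3_mem (a : F) : a ^ 3 ∈ V a := AddSubgroup.subset_closure (by simp)

/-- the elements of `V` -/
theorem mem_list {a x : F} (h : x ∈ V a) : x = 0 ∨ x = a ∨ x = a ^ 2 ∨ x = a + a ^ 2 ∨
    x = a ^ 3 ∨ x = a + a ^ 3 ∨ x = a ^ 2 + a ^ 3 ∨ x = a + a ^ 2 + a ^ 3 := by
  have key : ∃ p q r : F, (p = 0 ∨ p = 1) ∧ (q = 0 ∨ q = 1) ∧ (r = 0 ∨ r = 1) ∧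
      x = p * a + q * a ^ 2 + r * a ^ 3 := by
    have h11 : (1 : F) + 1 = 0 := dbl 1
    refine AddSubgroup.closure_induction (p := fun x _ => ∃ p q r : F, (p = 0 ∨ p = 1) ∧
      (q = 0 ∨ q = 1) ∧ (r = 0 ∨ r = 1) ∧ x = p * a + q * a ^ 2 + r * a ^ 3) ?_ ?_ ?_ ?_ h
    · rintro y hy
      simp only [Set.mem_insert_iff, Set.mem_singleton_iff] at hy
      rcases hy with rfl | rfl | rfl
      · exact ⟨1, 0, 0, Or.inr rfl, Or.inl rfl, Or.inl rfl, by ring⟩
      · exact ⟨0, 1, 0, Or.inl rfl, Or.inr rfl, Or.inl rfl, by ring⟩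
      · exact ⟨0, 0, 1, Or.inl rfl, Or.inl rfl, Or.inr rfl, by ring⟩
    · exact ⟨0, 0, 0, Or.inl rfl, Or.inl rfl, Or.inl rfl, by ring⟩
    · rintro y z - - ⟨p, q, r, hp, hq, hr, rfl⟩ ⟨p', q', r', hp', hq', hr', rfl⟩
      refine ⟨p + p', q + q', r + r', ?_, ?_, ?_, by ring⟩
      · rcases hp with rfl | rfl <;> rcases hp' with rfl | rfl <;> simp [h11]
      · rcases hq with rfl | rfl <;> rcases hq' with rfl | rfl <;> simp [h11]
      · rcases hr with rfl | rfl <;> rcases hr' with rfl | rfl <;> simp [h11]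
    · rintro y - ⟨p, q, r, hp, hq, hr, rfl⟩
      refine ⟨p, q, r, hp, hq, hr, ?_⟩
      exact CharTwo.neg_eq _
  obtain ⟨p, q, r, hp, hq, hr, rfl⟩ := key
  rcases hp with rfl | rfl <;> rcases hq with rfl | rfl <;> rcases hr with rfl | rfl <;> simp

open Classical in
/-- the involution -/
noncomputable def th (a x : F) : F := if x ∈ V a then x + (a ^ 3 + a) else x

theorem c_mem (a : F) : a ^ 3 + a ∈ V a := (V a).add_mem (a3_mem a) (a1_mem a)

theorem add_mem_iff {a x w : F} (hw : w ∈ V a) : x + w ∈ V a ↔ x ∈ V a :=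
  (V a).add_mem_cancel_right hw

theorem th_th (a x : F) : th a (th a x) = x := by
  by_cases hx : x ∈ V a
  · have h1 : th a x = x + (a ^ 3 + a) := if_pos hx
    rw [h1, th, if_pos ((add_mem_iff (c_mem a)).2 hx), add_assoc, dbl, add_zero]
  · have h1 : th a x = x := if_neg hx
    rw [h1, h1]

theorem th_zero (a : F) : th a 0 = a ^ 3 + a := by
  rw [th, if_pos (V a).zero_mem, zero_add]

/-- `θ (b z) + θ z` is injective in `z` if `b v`, `v` lie in `V` and `c = (b + 1) v` -/
theorem key_inj {a b v : F} (hb : b + 1 ≠ 0) (hv : v ∈ V a) (hbv : b * v ∈ V a)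
    (hc : a ^ 3 + a = (b + 1) * v) : Function.Injective fun z => th a (b * z) + th a z := by
  classical
  have hform : ∀ z : F, th a (b * z) + th a z =
      (b + 1) * (if (b * z ∈ V a ↔ z ∈ V a) then z else z + v) := by
    intro z
    have h2 := dbl (a ^ 3 + a)
    by_cases h1 : b * z ∈ V a <;> by_cases h3 : z ∈ V a <;> simp only [th, h1, h3, if_true, if_false,
      iff_self, iff_false, not_true, iff_true]
    · linear_combination h2
    · linear_combination hc
    · linear_combination hc
    · ring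
  have hper : ∀ z : F, (b * (z + v) ∈ V a ↔ z + v ∈ V a) ↔ (b * z ∈ V a ↔ z ∈ V a) := by
    intro z
    rw [mul_add, add_mem_iff hbv, add_mem_iff hv]
  intro z z' h
  have h' : th a (b * z) + th a z = th a (b * z') + th a z' := h
  rw [hform, hform] at h'
  have h4 := mul_left_cancel₀ hb h'
  by_cases h1 : (b * z ∈ V a ↔ z ∈ V a) <;> by_cases h2 : (b * z' ∈ V a ↔ z' ∈ V a)
  · rwa [if_pos h1, if_pos h2] at h4
  · rw [if_pos h1, if_neg h2] at h4
    rw [h4, hper] at h1
    exact absurd h1 h2
  · rw [if_neg h1, if_pos h2] at h4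
    rw [← h4, hper] at h2
    exact absurd h2 h1
  · rw [if_neg h1, if_neg h2] at h4
    exact add_right_cancel h4

/-- the involution as a permutation -/
noncomputable def thP (a : F) : Equiv.Perm F := Function.Involutive.toPerm (th a) (th_th a)

/-- `f` -/
noncomputable def P (a : F) (ha : a ≠ 0) : Equiv.Perm F := (thP a).trans ((Equiv.mulLeft₀ a ha).trans (thP a))

theorem P_apply (a : F) (ha : a ≠ 0) (x : F) : P a ha x = th a (a * th a x) := rfl

theorem P_pow (a : F) (ha : a ≠ 0) (n : ℕ) (x : F) : (P a ha ^ n) x = th a (a ^ n * th a x) := by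
  induction n generalizing x with
  | zero => rw [pow_zero, pow_zero, one_mul, th_th]; rfl
  | succ n ih =>
    rw [pow_succ, Equiv.Perm.mul_apply, ih, P_apply, th_th, pow_succ]
    ring_nf

theorem a_ne {a : F} (h1 : a ≠ 1) : a + 1 ≠ 0 := fun h => h1 (by
  have h2 := dbl (1 : F)
  linear_combination h - h2)

/-- the columns of the square -/
theorem inj1 {a : F} (ha : a ≠ 0) (h1 : a ≠ 1) : Function.Injective fun x => P a ha x + x := by
  have h := key_inj (a := a) (b := a) (v := a ^ 2 + a) (a_ne h1)
    ((V a).add_mem (a2_mem a) (a1_mem a)) (by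
      have : a * (a ^ 2 + a) = a ^ 3 + a ^ 2 := by ring
      rw [this]
      exact (V a).add_mem (a3_mem a) (a2_mem a)) (by
      have h2 := dbl (a ^ 2)
      linear_combination -h2)
  intro x y hxy
  have h3 : th a (a * th a x) + th a (th a x) = th a (a * th a y) + th a (th a y) := by
    rw [th_th, th_th]; exact hxy
  have h4 := h h3
  rw [← th_th a x, h4, th_th]

theorem inj2 {a : F} (ha : a ≠ 0) (h1 : a ≠ 1) :
    Function.Injective fun x => (P a ha ^ 2) x + x := by
  have h0 : a ^ 2 + 1 ≠ 0 := by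
    have h2 : a ^ 2 + 1 = (a + 1) * (a + 1) := by
      have := dbl a
      linear_combination -this
    rw [h2]
    exact mul_ne_zero (a_ne h1) (a_ne h1)
  have h := key_inj (a := a) (b := a ^ 2) (v := a) h0 (a1_mem a) (by
      have : a ^ 2 * a = a ^ 3 := by ring
      rw [this]
      exact a3_mem a) (by ring)
  intro x y hxy
  have h3 : th a (a ^ 2 * th a x) + th a (th a x) = th a (a ^ 2 * th a y) + th a (th a y) := by
    have h5 : (P a ha ^ 2) x + x = (P a ha ^ 2) y + y := hxy
    rw [P_pow, P_pow] at h5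
    rw [th_th, th_th]; exact h5
  have h4 := h h3
  rw [← th_th a x, h4, th_th]

open Classical in
/-- the exceptional set -/
noncomputable def S (a : F) : Finset F :=
  {0, a, a ^ 2, a + a ^ 2, a ^ 3, a + a ^ 3, a ^ 2 + a ^ 3, a + a ^ 2 + a ^ 3, 1, 1 + a, 1 + a ^ 2,
    1 + a + a ^ 2}

theorem S_card (a : F) : (S a).card ≤ 12 := by
  classical
  unfold S
  refine (Finset.card_insert_le _ _).trans (Nat.succ_le_succ ?_)
  refine (Finset.card_insert_le _ _).trans (Nat.succ_le_succ ?_)
  refine (Finset.card_insert_le _ _).trans (Nat.succ_le_succ ?_)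
  refine (Finset.card_insert_le _ _).trans (Nat.succ_le_succ ?_)
  refine (Finset.card_insert_le _ _).trans (Nat.succ_le_succ ?_)
  refine (Finset.card_insert_le _ _).trans (Nat.succ_le_succ ?_)
  refine (Finset.card_insert_le _ _).trans (Nat.succ_le_succ ?_)
  refine (Finset.card_insert_le _ _).trans (Nat.succ_le_succ ?_)
  refine (Finset.card_insert_le _ _).trans (Nat.succ_le_succ ?_)
  refine (Finset.card_insert_le _ _).trans (Nat.succ_le_succ ?_)
  refine (Finset.card_insert_le _ _).trans (Nat.succ_le_succ ?_)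
  simp

theorem V_sub {a x : F} (h : x ∈ V a) : x ∈ S a := by
  classical
  rcases mem_list h with h | h | h | h | h | h | h | h <;> rw [h] <;> simp [S]

theorem aV_sub {a x : F} (ha : a ≠ 0) (h : a * x ∈ V a) : x ∈ S a := by
  classical
  have hc : ∀ y : F, a * x = a * y → x = y := fun y hy => mul_left_cancel₀ ha hy
  rcases mem_list h with h | h | h | h | h | h | h | h
  · rw [hc 0 (by rw [h]; ring)]; simp [S]
  · rw [hc 1 (by rw [h]; ring)]; simp [S]
  · rw [hc a (by rw [h]; ring)]; simp [S]
  · rw [hc (1 + a) (by rw [h]; ring)]; simp [S]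
  · rw [hc (a ^ 2) (by rw [h]; ring)]; simp [S]
  · rw [hc (1 + a ^ 2) (by rw [h]; ring)]; simp [S]
  · rw [hc (a + a ^ 2) (by rw [h]; ring)]; simp [S]
  · rw [hc (1 + a + a ^ 2) (by rw [h]; ring)]; simp [S]

theorem P_lin {a : F} (ha : a ≠ 0) {x : F} (hx : x ∉ S a) : P a ha x = a * x := by
  have h3 : th a x = x := if_neg fun h => hx (V_sub h)
  have h4 : th a (a * x) = a * x := if_neg fun h => hx (aV_sub ha h)
  rw [P_apply, h3, h4]

theorem P_zero {a : F} (ha : a ≠ 0) (h1 : a ≠ 1) : P a ha 0 ≠ 0 := by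
  have h2 := a_ne h1
  have hc : a ^ 3 + a ≠ 0 := by
    have h3 : a ^ 3 + a = a * ((a + 1) * (a + 1)) := by
      have := dbl (a ^ 2)
      linear_combination -this
    rw [h3]
    exact mul_ne_zero ha (mul_ne_zero h2 h2)
  rw [P_apply, th_zero, th]
  split_ifs
  · have h3 : a * (a ^ 3 + a) + (a ^ 3 + a) = (a + 1) * (a ^ 3 + a) := by ring
    rw [h3]
    exact mul_ne_zero h2 hc
  · exact mul_ne_zero ha hc

/-- three elements all of whose nonzero sums are outside of the exceptional set -/
theorem exists_three [Fintype F] (a : F) (hF : 48 < Fintype.card F) : ∃ t α β : F, t ∉ S a ∧ α ∉ S a ∧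
    t + α ∉ S a ∧ β ∉ S a ∧ t + β ∉ S a ∧ α + β ∉ S a ∧ t + α + β ∉ S a := by
  classical
  have hS := S_card a
  have im : ∀ w : F, ((S a).image (fun x => x + w)).card ≤ 12 := fun w =>
    Finset.card_image_le.trans hS
  have hmem : ∀ w x : F, x + w ∈ S a → x ∈ (S a).image (fun x => x + w) := by
    intro w x h
    rw [mem_image]
    exact ⟨x + w, h, by rw [add_assoc, dbl, add_zero]⟩
  have pick : ∀ T : Finset F, T.card ≤ 48 → ∃ x : F, x ∉ T := by
    intro T hT
    by_contra hcon
    push Not at hcon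
    have h1 : T = univ := eq_univ_of_forall hcon
    rw [h1, card_univ] at hT
    omega
  obtain ⟨t, ht⟩ := pick (S a) (by omega)
  obtain ⟨α, hα⟩ := pick (S a ∪ (S a).image (fun x => x + t)) ((card_union_le _ _).trans (by
    have := im t; omega))
  obtain ⟨β, hβ⟩ := pick ((S a ∪ (S a).image (fun x => x + t)) ∪
      ((S a).image (fun x => x + α) ∪ (S a).image (fun x => x + (t + α)))) (by
    have h1 := im t
    have h2 := im α
    have h3 := im (t + α)
    have h4 := card_union_le (S a) ((S a).image (fun x => x + t))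
    have h5 := card_union_le ((S a).image (fun x => x + α)) ((S a).image (fun x => x + (t + α)))
    refine (card_union_le _ _).trans ?_
    omega)
  simp only [mem_union, not_or] at hα hβ
  refine ⟨t, α, β, ht, hα.1, fun h => hα.2 (hmem t α (by rwa [add_comm])), hβ.1.1,
    fun h => hβ.1.2 (hmem t β (by rwa [add_comm])), fun h => hβ.2.1 (hmem α β (by rwa [add_comm])),
    fun h => hβ.2.2 (hmem (t + α) β (by rwa [add_comm]))⟩

/-- not based on a group -/
theorem not_group [Fintype F] {a : F} (ha : a ≠ 0) (h1 : a ≠ 1) (hF : 48 < Fintype.card F)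
    (G : Type) [Group G] (r c s : F → G) (hs : Function.Injective s)
    (H : ∀ i j, s (i + P a ha (j + i)) = r i * c j) : False := by
  obtain ⟨t, α, β, h2, h3, h4, h5, h6, h7, h8⟩ := exists_three a hF
  -- rows 0, α and a t, a t + α; columns t + α + β, t + α (with x = j + i)
  have two := dbl (1 : F)
  have e : ∀ i j w : F, w ∉ S a → j + i = w → s (i + a * w) = r i * c j := by
    intro i j w hw hij
    rw [← H i j, hij, P_lin ha hw]
  -- first quadrangle: rows `0`, `α`; columns `x`, `x + β` with `x = t + α + β`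
  have a11 := e 0 (t + α + β) (t + α + β) h8 (by ring)
  have a12 := e 0 (t + α) (t + α) h4 (by ring)
  have a21 := e α (t + α + β) (t + β) h6 (by linear_combination α * two)
  have a22 := e α (t + α) t h2 (by linear_combination α * two)
  -- second quadrangle: rows `a t`, `a t + α`; columns `x + (1 + a) t`, `x + β + (1 + a) t`
  have b11 := e (a * t) (α + β + a * t) (α + β) h7 (by linear_combination a * t * two)
  have b12 := e (a * t) (α + a * t) α h3 (by linear_combination a * t * two)
  have b21 := e (a * t + α) (α + β + a * t) β h5 (by linear_combination (a * t + α) * two)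
  have b22 := H (a * t + α) (α + a * t)
  have hz : α + a * t + (a * t + α) = 0 := by linear_combination (a * t + α) * two
  rw [hz] at b22
  have c11 : (0 : F) + a * (t + α + β) = a * t + a * (α + β) := by ring
  have c12 : (0 : F) + a * (t + α) = a * t + a * α := by ring
  have c21 : α + a * (t + β) = a * t + α + a * β := by ring
  rw [c11, b11] at a11
  rw [c12, b12] at a12
  rw [c21, b21] at a21
  -- r' c' relations
  have g : r (a * t + α) * c (α + a * t) = r α * c (t + α) := by
    have k1 : (r 0)⁻¹ * r (a * t) = c (t + α + β) * (c (α + β + a * t))⁻¹ := by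
      rw [inv_mul_eq_iff_eq_mul, ← mul_assoc, ← a11, mul_assoc, mul_inv_cancel, mul_one]
    have k2 : (r 0)⁻¹ * r (a * t) = c (t + α) * (c (α + a * t))⁻¹ := by
      rw [inv_mul_eq_iff_eq_mul, ← mul_assoc, ← a12, mul_assoc, mul_inv_cancel, mul_one]
    have k3 : (r α)⁻¹ * r (a * t + α) = c (t + α + β) * (c (α + β + a * t))⁻¹ := by
      rw [inv_mul_eq_iff_eq_mul, ← mul_assoc, ← a21, mul_assoc, mul_inv_cancel, mul_one]
    rw [← k1, k2] at k3
    rw [inv_mul_eq_iff_eq_mul] at k3
    rw [k3, mul_assoc, mul_assoc, inv_mul_cancel, mul_one]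
  rw [g, ← a22] at b22
  have h9 := hs b22
  exact P_zero ha h1 (by linear_combination h9)

end field

/-- the theorem for `k ≥ 6` -/
theorem big {k : ℕ} (hk : 6 ≤ k) : ∃ L : Fin (2 ^ k) → Equiv.Perm (Fin (2 ^ k)),
    (∀ j, Function.Injective (fun i => L i j)) ∧
    (∀ i, (∃! x, L i x = x) ∧ ∀ x y, L i x ≠ x → L i y ≠ y → ∃ n : ℕ, ((L i) ^ n) x = y) ∧
    (¬ ∃ (G : Type) (_ : Group G) (r c s : Fin (2 ^ k) ≃ G), ∀ i j, s (L i j) = r i * c j) ∧
    (∀ j, Function.Injective (fun i => (L i * L i) j)) := by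
  classical
  have : Fact (Nat.Prime 2) := ⟨Nat.prime_two⟩
  have hk0 : k ≠ 0 := by omega
  let F := GaloisField 2 k
  let : Fintype F := Fintype.ofFinite F
  have hcard : Fintype.card F = 2 ^ k := by
    rw [← Nat.card_eq_fintype_card]
    exact GaloisField.card 2 k hk0
  have h48 : 48 < Fintype.card F := by
    rw [hcard]
    have : 2 ^ 6 ≤ 2 ^ k := Nat.pow_le_pow_right (by norm_num) hk
    omega
  obtain ⟨g, hg⟩ := IsCyclic.exists_generator (α := Fˣ)
  let a : F := (g : F)
  have ha : a ≠ 0 := g.ne_zero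
  have hgen : ∀ x : F, x ≠ 0 → ∃ n : ℕ, a ^ n = x := by
    intro x hx
    have h1 := hg (Units.mk0 x hx)
    rw [← (isOfFinOrder_of_finite g).mem_powers_iff_mem_zpowers] at h1
    obtain ⟨n, hn⟩ := h1
    refine ⟨n, ?_⟩
    have h2 := congrArg (fun u : Fˣ => (u : F)) hn
    simpa using h2
  have ha1 : a ≠ 1 := by
    intro h1
    have h2 : ∀ x : F, x = 0 ∨ x = 1 := by
      intro x
      by_cases hx : x = 0
      · exact Or.inl hx
      · obtain ⟨n, hn⟩ := hgen x hx
        rw [h1, one_pow] at hn
        exact Or.inr hn.symm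
    have h3 : (univ : Finset F) ⊆ {0, 1} := by
      intro x _
      simpa using h2 x
    have h4 := card_le_card h3
    have h5 : ({0, 1} : Finset F).card ≤ 2 := card_le_two
    rw [card_univ] at h4
    omega
  have htrans : ∀ x y : F, x ≠ 0 → y ≠ 0 → ∃ n : ℕ, a ^ n * x = y := by
    intro x y hx hy
    obtain ⟨n, hn⟩ := hgen (y / x) (div_ne_zero hy hx)
    exact ⟨n, by rw [hn, div_mul_cancel₀ _ hx]⟩
  let ε : F ≃ Fin (2 ^ k) := Fintype.equivFinOfCardEq hcard
  let row : F → Equiv.Perm F := fun i => (Equiv.addRight i).trans ((P a ha).trans (Equiv.addLeft i))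
  let L : Fin (2 ^ k) → Equiv.Perm (Fin (2 ^ k)) :=
    fun i => (ε.symm.trans (row (ε.symm i))).trans ε
  have hL : ∀ i x, L i x = ε (ε.symm i + P a ha (ε.symm x + ε.symm i)) := fun i x => rfl
  have hpow : ∀ (i : Fin (2 ^ k)) (l : ℕ) (x : Fin (2 ^ k)),
      ((L i) ^ l) x = ε (ε.symm i + (P a ha ^ l) (ε.symm x + ε.symm i)) := by
    intro i l
    induction l with
    | zero =>
      intro x
      have h1 : ε.symm i + (ε.symm x + ε.symm i) = ε.symm x := by
        have := dbl (ε.symm i)
        linear_combination this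
      simp [h1]
    | succ n ih =>
      intro x
      have h1 : ε.symm i + P a ha (ε.symm x + ε.symm i) + ε.symm i = P a ha (ε.symm x + ε.symm i) := by
        have := dbl (ε.symm i)
        linear_combination this
      rw [pow_succ, Equiv.Perm.mul_apply, ih, hL, Equiv.symm_apply_apply, pow_succ, Equiv.Perm.mul_apply, h1]
  have hcol : ∀ Q : Equiv.Perm F, (Function.Injective fun x => Q x + x) → ∀ j i i' : F,
      i + Q (j + i) = i' + Q (j + i') → i = i' := by
    intro Q hQ j i i' h
    have h1 : Q (j + i) + (j + i) = Q (j + i') + (j + i') := by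
      linear_combination h
    exact add_left_cancel (hQ h1)
  refine ⟨L, ?_, ?_, ?_, ?_⟩
  · intro j i i' hij
    have h1 : L i j = L i' j := hij
    rw [hL, hL] at h1
    exact ε.symm.injective (hcol _ (inj1 ha ha1) _ _ _ (ε.injective h1))
  · intro i
    have fix : ∀ x, L i x = x ↔ th a (ε.symm x + ε.symm i) = 0 := by
      intro x
      rw [hL]
      have h0 := dbl (ε.symm i)
      constructor
      · intro hx
        have h1 : ε.symm i + P a ha (ε.symm x + ε.symm i) = ε.symm x := by
          apply ε.injective; rw [hx, Equiv.apply_symm_apply]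
        have h2 : P a ha (ε.symm x + ε.symm i) = ε.symm x + ε.symm i := by
          linear_combination h1 - h0
        rw [P_apply] at h2
        have h3 : a * th a (ε.symm x + ε.symm i) = th a (ε.symm x + ε.symm i) := by
          rw [← th_th a (a * th a (ε.symm x + ε.symm i)), h2]
        by_contra hne
        exact ha1 (mul_right_cancel₀ hne (by rw [h3, one_mul]))
      · intro hx
        have h2 : P a ha (ε.symm x + ε.symm i) = ε.symm x + ε.symm i := by
          rw [P_apply, hx, mul_zero, ← hx, th_th]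
        rw [h2]
        have h1 : ε.symm i + (ε.symm x + ε.symm i) = ε.symm x := by
          linear_combination h0
        rw [h1, Equiv.apply_symm_apply]
    refine ⟨⟨ε (th a 0 + ε.symm i), ?_, ?_⟩, ?_⟩
    · beta_reduce
      rw [fix, Equiv.symm_apply_apply, add_assoc, dbl, add_zero, th_th]
    · intro x hx
      rw [fix] at hx
      have h1 : ε.symm x + ε.symm i = th a 0 := by
        rw [← hx, th_th]
      have h2 : ε.symm x = th a 0 + ε.symm i := by
        have := dbl (ε.symm i)
        linear_combination h1 - this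
      rw [← h2, Equiv.apply_symm_apply]
    · intro x y hx hy
      rw [Ne, fix] at hx hy
      obtain ⟨n, hn⟩ := htrans _ _ hx hy
      refine ⟨n, ?_⟩
      rw [hpow, P_pow, hn, th_th]
      have h1 : ε.symm i + (ε.symm y + ε.symm i) = ε.symm y := by
        have := dbl (ε.symm i)
        linear_combination this
      rw [h1, Equiv.apply_symm_apply]
  · rintro ⟨G, hG, r, c, s, H⟩
    refine not_group ha ha1 h48 G (fun i => r (ε i)) (fun j => c (ε j)) (fun x => s (ε x))
      (s.injective.comp ε.injective) fun i j => ?_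
    have h1 := H (ε i) (ε j)
    rw [hL, Equiv.symm_apply_apply, Equiv.symm_apply_apply] at h1
    exact h1
  · intro j i i' hij
    have h1 : ((L i) ^ 2) j = ((L i') ^ 2) j := by
      rw [pow_two, pow_two]
      exact hij
    rw [hpow, hpow] at h1
    exact ε.symm.injective (hcol _ (inj2 ha ha1) _ _ _ (ε.injective h1))

end Pool.Agent.H28.PT5
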